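import Pool.Agent.W896.FD.Shortest

/-!
# Verifying that all arcs are shortest paths needs many reads or much memory

We consider complete directed graphs on `n = N + 1` vertices with arc weights in `{1, 2, 3, 4}`,
given by the weight matrix (two bits for each pair), and the problem to decide whether the arcs are
shortest walks between their ends, that is, whether the matrix of the distances is the weight matrix
itself. For weights of polynomial size this decision problem (metricity) is equivalent to APSP
under subcubic reductions (Vassilevska Williams and Williams; not used here). All triples of
vertices can be checked in time `O (n ^ 3)` with a memory of `O (log n)` bits.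

We consider Boolean circuits with AND gates of fan-in two, OR gates of any fan-in and negations at
the inputs. Such a circuit accepts if and only if it has a proof tree all of whose leaves are true
literals; the formal degree in an input bit is the largest number of leaves with this bit, that is,
the number of times this bit is read. Nondeterministic, in particular deterministic, branching
programs are such circuits (the logarithm of the size is the memory, and a bit which is read at most
`k` times on every path has degree at most `k`), and so are programs with a stack; a proof tree of a
circuit may even read any part of the input again and again in its branches. There is no bound on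
the time.

We show that the circuits which accept exactly the weight matrices all of whose arcs are shortest
have size `2 ^ Ω (n)` if the total formal degree is linear in the length of the input. So algorithms
of this kind (nondeterministic ones, with a stack) with a memory of `o (n)` bits need a time which
is superlinear in the input, also for this decision problem with small weights. It is even enough to
bound the degrees in the bits of the arcs which leave a single vertex, and then the statement remains
true for circuits with one-sided randomness, which find out only with probability `2 ^ (- N / D)`
that all arcs are shortest.

The hard instances: a vertex `a`, arcs of weight one or three from `a` to the other vertices, and a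
random matching of the other vertices. The arcs between matched vertices have weight one, so that
the arcs from `a` to the two vertices of each matched pair must have the same weight. The other
arcs between the other vertices have weight two, the arcs to `a` have weight four.
-/

set_option autoImplicit false

namespace Pool.Agent.Results.MP_885423_lc.ShortestArcs

open Pool.Agent.W896.RK Pool.Agent.W896.FD Pool.Agent.W896.FD.Shortest

/-- The arc from `i` to `j` has the weight `1 + x (i, j, false) + 2 x (i, j, true)` (two bits);
`Shortest x` says that for all vertices `i ≠ j` no walk from `i` to `j` has a smaller weight than
this arc.

1. Let `a` be a vertex and `U r` (`r` in a finite nonempty set) circuits which accept only weight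
matrices whose arcs are shortest, such that every such matrix is accepted by at least a
`2 ^ (- ⌊N / 2 ^ (60 (k + 1))⌋)` fraction of them. If in each `U r` the formal degrees in the
`N + 1` bits `(a, v, true)` sum up to at most `k N`, then some `U r` has `g` gates with
`N ≤ 2 ^ (60 (k + 1)) (⌊log₂ g⌋ + 1)`.

2. If a circuit accepts exactly the weight matrices whose arcs are shortest, and its formal degrees
in the bits `(u, v, true)` sum up to at most `k N (N + 1)`, then it has `g` gates with
`N ≤ 2 ^ (60 (k + 1)) (⌊log₂ g⌋ + 1)`. -/
theorem result (k N : ℕ) :
    (∀ (a : Fin (N + 1)) (R : Type) [Fintype R] [Nonempty R]
      (U : R → Circ (Fin (N + 1) × Fin (N + 1) × Bool)),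
      (∀ r x, (U r).Val x (U r).out → Shortest x) →
      (∀ x, Shortest x →
        Nat.card R ≤ 2 ^ (N / 2 ^ (60 * (k + 1))) * Nat.card {r // (U r).Val x (U r).out}) →
      (∀ r, ∃ f : (U r).G → Fin (N + 1) × Fin (N + 1) × Bool → ℕ, IsDeg (U r) id f ∧
        ∑ v, f (U r).out (a, v, true) ≤ k * N) →
      ∃ r, N ≤ 2 ^ (60 * (k + 1)) * (Nat.log 2 (Fintype.card (U r).G) + 1)) ∧
    (∀ U : Circ (Fin (N + 1) × Fin (N + 1) × Bool), (∀ x, U.Val x U.out ↔ Shortest x) →
      (∃ f : U.G → Fin (N + 1) × Fin (N + 1) × Bool → ℕ, IsDeg U id f ∧
        ∑ u, ∑ v, f U.out (u, v, true) ≤ k * (N * (N + 1))) →
      N ≤ 2 ^ (60 * (k + 1)) * (Nat.log 2 (Fintype.card U.G) + 1)) :=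
  ⟨fun a R _ _ U hU hc hd => short_row k N a R U hU hc hd,
    fun U hU hd => short_total k N U hU hd⟩

end Pool.Agent.Results.MP_885423_lc.ShortestArcs
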