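import Pool.Agent.W896.MO.ApspFinal

/-!
# All-pairs shortest paths with bounded memory and an unlimited stack

The model is a non-uniform randomised algorithm with `S` bits of memory (at most `2 ^ S` nodes) and,
in addition, a stack (pushdown store) of unlimited height for arbitrary symbols, so that recursion
is free. Only the number `T` of the reads of entries of the weight matrix and of the writes of
distances is counted; the computations and the operations on the stack are free, and there is no
bound on the number of steps.

The theorem says `T * S ≥ N ^ 4 / (log N) ^ O (1)` for directed graphs with `N` vertices, already if
all edges have weight one. So the APSP hypothesis is true for algorithms with a memory of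
`N ^ (1 + o(1))` bits and an unlimited stack: they need time `N ^ (3 - o(1))`. The Lean files at the
start of this project contain the same bound for algorithms without a stack
(`MP_885423_lc`, `SpaceBoundedAPSP`); the graphs and the counting of the disconnected pairs are
taken from there.

Proof. A computation is cut into pieces: by an induction on the nesting of the pushes and pops it
is covered by `O (T / a)` procedures with at most `4 a` reads and writes and at most four holes, in
which a part of the computation that begins and ends at the same height of the stack has been left
out; only the entry and exit nodes of the holes are kept. So there are only polynomially many (in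
`2 ^ S` and `T`) such procedures, and each of them has to output few correct distances with high
probability.
-/

set_option autoImplicit false

namespace Pool.Agent.Results.MP_885423_lc.StackTradeoff

open Pool.Agent.W896.MO
open Pool.Agent.H537R2.Apsp (Graph)

/-- There is a constant `c` such that for all large `N`, all `S` and `T`: if `P r`, for a uniformly
random `r : R`, is a program with a stack and with at most `2 ^ S` nodes, and for every directed
graph on `N` vertices all of whose edges have weight `1` the program `P r` outputs all distances
with at most `T` reads and writes with probability more than `1/2`, then
`N ^ 4 < c * (T * S * (log₂ N) ^ 10)`. -/
theorem result : ∃ c : ℕ, ∀ᶠ N : ℕ in Filter.atTop, ∀ (S T : ℕ)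
    (R : Type) [Fintype R] (P : R → Prog (Fin N × Fin N) (Fin N × Fin N) ℕ∞),
      (∀ r, Fintype.card (P r).State ≤ 2 ^ S) →
      (∀ w : Graph N, (∀ p, w p = 1 ∨ w p = ⊤) →
        Nat.card R < 2 * Nat.card {r : R // (P r).Computes w (dists w) T}) →
      N ^ 4 < c * (T * S * (Nat.log 2 N) ^ 10) :=
  apsp_main

end Pool.Agent.Results.MP_885423_lc.StackTradeoff
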